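import Mathlib

/-!
# Automatic sets are nested (helper41, for helper72's NestedSets theorem, MP_12a1af_nt)

If the language of the base `q` digit lists (least significant digit first, no trailing zero) of the
elements of `A` is regular, then every class mod `q^j` which meets `A` contains an element of `A`
below `q^(j+s)`, with `s` the number of states of the automaton plus one.
-/

namespace Pool.Agent.Helper41.NS

/-- Cutting the loops of an automaton: from the state `p` every word can be replaced by a word
with fewer letters than the number of states, with letters of the old word, leading to the same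
state. -/
theorem exists_short {α σ : Type*} [Fintype σ] (M : DFA α σ) (p : σ) (x : List α) :
    ∃ y : List α, y.length < Fintype.card σ ∧ (∀ d ∈ y, d ∈ x) ∧
      M.evalFrom p y = M.evalFrom p x := by
  induction' hn : x.length using Nat.strong_induction_on with n ih generalizing x
  by_cases hlt : x.length < Fintype.card σ
  · exact ⟨x, hlt, fun _ h => h, rfl⟩
  · obtain ⟨r, a, b, c, hx, -, hb, ha, hbb, hc⟩ :=
      M.evalFrom_split (not_lt.mp hlt) (rfl : M.evalFrom p x = _)
    have hlen : (a ++ c).length < n := by
      have : 0 < b.length := List.length_pos_iff.mpr hb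
      rw [← hn, hx]
      simp only [List.length_append]
      omega
    obtain ⟨y, h1, h2, h3⟩ := ih _ hlen (a ++ c) rfl
    refine ⟨y, h1, fun d hd => ?_, ?_⟩
    · have := h2 d hd
      rw [hx]
      simp only [List.mem_append] at this ⊢
      tauto
    · rw [h3, DFA.evalFrom_of_append, ha, hc]

/-- Automatic sets are nested. -/
theorem auto_nested (q : ℕ) (hq : 2 ≤ q) (A : Set ℕ)
    (hA : Language.IsRegular ((Nat.digits q '' A : Set (List ℕ)) : Language ℕ)) :
    ∃ s : ℕ, ∀ (j a : ℕ), a ∈ A → ∃ b ∈ A, b < q ^ (j + s) ∧ b % q ^ j = a % q ^ j := by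
  obtain ⟨σ, _, M, hM⟩ := hA
  refine ⟨Fintype.card σ, fun j a ha => ?_⟩
  have hq0 : 0 < q := by omega
  by_cases hlt : a < q ^ (j + Fintype.card σ)
  · exact ⟨a, ha, hlt, rfl⟩
  push Not at hlt
  have ha0 : a ≠ 0 := by
    have : 0 < q ^ (j + Fintype.card σ) := Nat.pow_pos hq0
    omega
  set w := Nat.digits q a with hw
  have hwne : w ≠ [] := Nat.digits_ne_nil_iff_ne_zero.mpr ha0
  have hwlen : j + Fintype.card σ < w.length := by
    by_contra hcon
    push Not at hcon
    have h1 : a < q ^ w.length := Nat.lt_base_pow_length_digits (by omega)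
    have h2 : q ^ w.length ≤ q ^ (j + Fintype.card σ) := Nat.pow_le_pow_right hq0 hcon
    omega
  -- the parts of the word
  obtain ⟨u, v, d, hwuv, hulen⟩ : ∃ u v d, w = u ++ (v ++ [d]) ∧ u.length = j := by
    refine ⟨w.take j, (w.drop j).dropLast, w.getLast hwne, ?_, ?_⟩
    · have hne : w.drop j ≠ [] := by
        intro h
        have := congrArg List.length h
        simp at this
        omega
      have h1 : w.getLast hwne = (w.drop j).getLast hne := by
        rw [List.getLast_drop]
      rw [h1, List.dropLast_append_getLast, List.take_append_drop]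
    · rw [List.length_take]; omega
  obtain ⟨y, hy1, hy2, hy3⟩ := exists_short M (M.evalFrom M.start u) v
  -- the new word
  have hmem : w ∈ M.accepts := by
    rw [hM]
    exact ⟨a, ha, rfl⟩
  have hmem' : u ++ (y ++ [d]) ∈ M.accepts := by
    rw [DFA.mem_accepts] at hmem ⊢
    rw [hwuv] at hmem
    unfold DFA.eval at hmem ⊢
    rw [DFA.evalFrom_of_append, DFA.evalFrom_of_append] at hmem ⊢
    rw [hy3]
    exact hmem
  rw [hM] at hmem'
  obtain ⟨b, hb, hbd⟩ := hmem'
  have hba : b = Nat.ofDigits q (u ++ (y ++ [d])) := by
    rw [← hbd, Nat.ofDigits_digits]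
  have haa : a = Nat.ofDigits q (u ++ (v ++ [d])) := by
    rw [← hwuv, hw, Nat.ofDigits_digits]
  refine ⟨b, hb, ?_, ?_⟩
  · have h1 : b < q ^ (Nat.digits q b).length := Nat.lt_base_pow_length_digits (by omega)
    have h2 : (Nat.digits q b).length ≤ j + Fintype.card σ := by
      rw [hbd]
      simp only [List.length_append, List.length_cons, List.length_nil]
      omega
    exact h1.trans_le (Nat.pow_le_pow_right hq0 h2)
  · rw [hba, haa, Nat.ofDigits_append, Nat.ofDigits_append (l1 := u) (l2 := v ++ [d]), hulen,
      Nat.add_mul_mod_self_left, Nat.add_mul_mod_self_left]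

end Pool.Agent.Helper41.NS
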