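import Mathlib

/-!
# A nested thick set with `r_A(n) ≤ C (log n)^2` (helper41, MP_12a1af_nt)

`A = ⋃ T j`, `T j ⊆ [0, 4^j)` a tree: every `a ∈ T j` has the two children `a + 4^j d`,
`d ≡ e j a (mod 2)`, `d < 4`, in `T (j+1)`. The functions `e j` are chosen one after the other
by averaging a potential.
-/

namespace Pool.Agent.Helper41.NS

open Finset

/-! ### Partners -/

/-- The partner of `b` for the target `n` modulo `N`. -/
def sg (N n b : ℕ) : ℕ := (n + (N - b)) % N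

theorem sg_lt {N : ℕ} (hN : 0 < N) (n b : ℕ) : sg N n b < N := Nat.mod_lt _ hN

theorem sg_add {N n b : ℕ} (hb : b < N) : (sg N n b + b) % N = n % N := by
  unfold sg
  rw [Nat.mod_add_mod, show n + (N - b) + b = n + N by omega, Nat.add_mod_right]

theorem eq_sg {N n a b : ℕ} (ha : a < N) (hb : b < N) (h : (a + b) % N = n % N) :
    a = sg N n b := by
  have h1 : (a + b) ≡ n [MOD N] := h
  have h2 : (sg N n b + b) ≡ n [MOD N] := sg_add hb
  have h3 : a ≡ sg N n b [MOD N] := Nat.ModEq.add_right_cancel' b (h1.trans h2.symm)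
  have h4 : a % N = sg N n b % N := h3
  rwa [Nat.mod_eq_of_lt ha, Nat.mod_eq_of_lt (sg_lt (by omega) n b)] at h4

theorem sg_sg {N n b : ℕ} (hb : b < N) : sg N n (sg N n b) = b := by
  symm
  apply eq_sg hb (sg_lt (by omega) n b)
  rw [add_comm]
  exact sg_add hb

theorem sg_mod (N n b : ℕ) : sg N (n % N) b = sg N n b := by
  unfold sg
  rw [Nat.mod_add_mod]

/-- The number of pairs `(a, b)`, `a ∈ F`, `b ∈ T` with `a + b ≡ n (mod N)`. -/
def cnt (N : ℕ) (F T : Finset ℕ) (n : ℕ) : ℕ := (T.filter (fun b => sg N n b ∈ F)).card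

theorem cnt_mod (N : ℕ) (F T : Finset ℕ) (n : ℕ) : cnt N F T (n % N) = cnt N F T n := by
  unfold cnt
  simp only [sg_mod]

/-- The children. -/
def nx (N : ℕ) (T : Finset ℕ) (e : ℕ → ZMod 2) : Finset ℕ :=
  (range (4 * N)).filter (fun x => x % N ∈ T ∧ ((x / N : ℕ) : ZMod 2) = e (x % N))

/-- The required parity of the digit sum. -/
def rho (N n b : ℕ) : ZMod 2 := ((((n : ℤ) - ((sg N n b + b : ℕ) : ℤ)) / (N : ℤ) : ℤ) : ZMod 2)

theorem rho_symm {N n b : ℕ} (hb : b < N) : rho N n (sg N n b) = rho N n b := by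
  unfold rho
  rw [sg_sg hb, add_comm]

/-- The digit sum has the required parity. -/
theorem rho_eq {N n x y : ℕ} (hN : 0 < N) (h : (x + y) % (4 * N) = n % (4 * N)) :
    x % N = sg N n (y % N) ∧
      rho N n (y % N) = ((x / N : ℕ) : ZMod 2) + ((y / N : ℕ) : ZMod 2) := by
  have h1 : (x + y) ≡ n [MOD 4 * N] := h
  have h2 : (x + y) ≡ n [MOD N] := h1.of_mul_left 4
  have h3 : (x % N + y % N) % N = n % N := by
    rw [← Nat.add_mod]; exact h2
  have h4 : x % N = sg N n (y % N) := eq_sg (Nat.mod_lt _ hN) (Nat.mod_lt _ hN) h3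
  refine ⟨h4, ?_⟩
  unfold rho
  rw [← h4]
  have h5 : ((4 * N : ℕ) : ℤ) ∣ (n : ℤ) - ((x + y : ℕ) : ℤ) := Nat.modEq_iff_dvd.mp h1
  obtain ⟨k, hk⟩ := h5
  have hx : (x : ℤ) = (x % N : ℕ) + N * (x / N : ℕ) := by
    exact_mod_cast (Nat.mod_add_div x N).symm
  have hy : (y : ℤ) = (y % N : ℕ) + N * (y / N : ℕ) := by
    exact_mod_cast (Nat.mod_add_div y N).symm
  have h6 : (n : ℤ) - ((x % N + y % N : ℕ) : ℤ)
      = (N : ℤ) * (4 * k + ((x / N : ℕ) : ℤ) + ((y / N : ℕ) : ℤ)) := by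
    push_cast at hk hx hy ⊢
    linear_combination hk + hx + hy
  rw [h6, Int.mul_ediv_cancel_left _ (by exact_mod_cast hN.ne')]
  rw [Int.cast_add, Int.cast_add, Int.cast_mul, Int.cast_natCast, Int.cast_natCast,
    show ((4 : ℤ) : ZMod 2) = 0 by decide]
  ring

/-! ### One step -/

theorem cnt_frozen {N : ℕ} (hN : 0 < N) {F : Finset ℕ} (hF : F ⊆ range N) (T : Finset ℕ)
    (e : ℕ → ZMod 2) (n : ℕ) :
    cnt (4 * N) F (nx N T e) n
      ≤ ((T.filter (fun b => sg N n b ∈ F)).filter (fun b => e b = rho N n b)).card := by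
  unfold cnt
  refine Finset.card_le_card_of_injOn (fun y => y % N) ?_ ?_
  · intro y hy
    simp only [coe_filter, Set.mem_ofPred_eq, nx, mem_filter, mem_range] at hy ⊢
    obtain ⟨⟨hy1, hy2, hy3⟩, hy4⟩ := hy
    obtain ⟨h1, h2⟩ := rho_eq hN (sg_add (n := n) hy1)
    have haN : sg (4 * N) n y < N := by
      simpa using hF hy4
    rw [Nat.mod_eq_of_lt haN] at h1
    rw [Nat.div_eq_of_lt haN] at h2
    refine ⟨⟨hy2, by rw [← h1]; exact hy4⟩, ?_⟩
    rw [h2, ← hy3]; simp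
  · intro y hy y' hy' hyy
    simp only [coe_filter, Set.mem_ofPred_eq, nx, mem_filter, mem_range] at hy hy' hyy
    obtain ⟨⟨hy1, hy2, hy3⟩, hy4⟩ := hy
    obtain ⟨⟨hy1', hy2', hy3'⟩, hy4'⟩ := hy'
    have h1 := (rho_eq hN (sg_add (n := n) hy1)).1
    have h1' := (rho_eq hN (sg_add (n := n) hy1')).1
    have haN : sg (4 * N) n y < N := by simpa using hF hy4
    have haN' : sg (4 * N) n y' < N := by simpa using hF hy4'
    rw [Nat.mod_eq_of_lt haN] at h1
    rw [Nat.mod_eq_of_lt haN'] at h1'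
    rw [← sg_sg (n := n) hy1, ← sg_sg (n := n) hy1', h1, h1', hyy]

theorem cnt_active {N : ℕ} (hN : 0 < N) (T : Finset ℕ)
    (e : ℕ → ZMod 2) (n : ℕ) :
    cnt (4 * N) (nx N T e) (nx N T e) n
      ≤ 2 * ((T.filter (fun b => sg N n b ∈ T)).filter
          (fun b => e b + e (sg N n b) = rho N n b)).card := by
  have hprod : (((T.filter (fun b => sg N n b ∈ T)).filter
      (fun b => e b + e (sg N n b) = rho N n b)) ×ˢ range 2).card
      = 2 * ((T.filter (fun b => sg N n b ∈ T)).filter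
          (fun b => e b + e (sg N n b) = rho N n b)).card := by
    rw [Finset.card_product, Finset.card_range, mul_comm]
  rw [← hprod]
  unfold cnt
  refine Finset.card_le_card_of_injOn (fun y => (y % N, y / N / 2)) ?_ ?_
  · intro y hy
    simp only [coe_filter, Set.mem_ofPred_eq, nx, mem_filter, mem_range, coe_product,
      Set.mem_prod, coe_range, Set.mem_Iio] at hy ⊢
    obtain ⟨⟨hy1, hy2, hy3⟩, hx1, hx2, hx3⟩ := hy
    obtain ⟨h1, h2⟩ := rho_eq hN (sg_add (n := n) hy1)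
    refine ⟨⟨⟨hy2, by rw [← h1]; exact hx2⟩, ?_⟩, ?_⟩
    · rw [← h1, h2, ← hy3, ← hx3, add_comm]
    · have : y / N < 4 := (Nat.div_lt_iff_lt_mul hN).mpr hy1
      omega
  · intro y hy y' hy' hyy
    simp only [coe_filter, Set.mem_ofPred_eq, nx, mem_filter, mem_range, Prod.mk.injEq]
      at hy hy' hyy
    obtain ⟨⟨hy1, hy2, hy3⟩, -⟩ := hy
    obtain ⟨⟨hy1', hy2', hy3'⟩, -⟩ := hy'
    obtain ⟨h1, h2⟩ := hyy
    have h3 : ((y / N : ℕ) : ZMod 2) = ((y' / N : ℕ) : ZMod 2) := by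
      rw [hy3, hy3', h1]
    have h4 : (y / N) % 2 = (y' / N) % 2 := (ZMod.natCast_eq_natCast_iff' _ _ 2).mp h3
    have h5 : y / N = y' / N := by omega
    rw [← Nat.mod_add_div y N, ← Nat.mod_add_div y' N, h1, h5]

/-- The solutions of `2 b ≡ n`. -/
theorem diag_card {N : ℕ} (n : ℕ) (S : Finset ℕ)
    (hS : ∀ b ∈ S, b < N ∧ sg N n b = b) : S.card ≤ 2 := by
  have h : S ⊆ {(n % N) / 2, (n % N + N) / 2} := by
    intro b hb
    obtain ⟨h1, h2⟩ := hS b hb
    have h3 := sg_add (n := n) h1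
    rw [h2] at h3
    have hN : 0 < N := by omega
    have h4 : n % N < N := Nat.mod_lt _ hN
    simp only [mem_insert, mem_singleton]
    by_cases h5 : b + b < N
    · rw [Nat.mod_eq_of_lt h5] at h3
      left; omega
    · rw [Nat.mod_eq_sub_mod (by omega), Nat.mod_eq_of_lt (by omega)] at h3
      right; omega
  exact (card_le_card h).trans card_le_two

/-- The smaller members of the matched pairs. -/
def half (N : ℕ) (T : Finset ℕ) (n : ℕ) : Finset ℕ :=
  T.filter (fun b => sg N n b ∈ T ∧ b < sg N n b)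

theorem cnt_active' {N : ℕ} (hN : 0 < N) {T : Finset ℕ} (hT : T ⊆ range N)
    (e : ℕ → ZMod 2) (n : ℕ) :
    cnt (4 * N) (nx N T e) (nx N T e) n
      ≤ 4 * ((half N T n).filter (fun b => e b + e (sg N n b) = rho N n b)).card + 4 := by
  refine (cnt_active hN T e n).trans ?_
  have hTN : ∀ b ∈ T, b < N := fun b hb => by simpa using hT hb
  set S := (T.filter (fun b => sg N n b ∈ T)).filter
          (fun b => e b + e (sg N n b) = rho N n b) with hS
  set H := (half N T n).filter (fun b => e b + e (sg N n b) = rho N n b) with hH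
  set D := S.filter (fun b => sg N n b = b) with hD
  have hDc : D.card ≤ 2 := by
    apply diag_card n D
    intro b hb
    simp only [hD, hS, mem_filter] at hb
    exact ⟨hTN b hb.1.1.1, hb.2⟩
  have hsub : S ⊆ (H ∪ H.image (sg N n)) ∪ D := by
    intro b hb
    have hb' := hb
    simp only [hS, mem_filter] at hb'
    obtain ⟨⟨h1, h2⟩, h3⟩ := hb'
    have hbN := hTN b h1
    simp only [mem_union]
    rcases lt_trichotomy b (sg N n b) with h | h | h
    · left; left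
      simp only [hH, half, mem_filter]
      exact ⟨⟨h1, h2, h⟩, h3⟩
    · right
      simp only [hD, mem_filter]
      exact ⟨hb, h.symm⟩
    · left; right
      rw [mem_image]
      refine ⟨sg N n b, ?_, sg_sg hbN⟩
      simp only [hH, half, mem_filter]
      rw [sg_sg hbN, rho_symm hbN]
      exact ⟨⟨h2, h1, h⟩, by rw [add_comm]; exact h3⟩
  have h1 := card_le_card hsub
  have h2 := card_union_le (H ∪ H.image (sg N n)) D
  have h3 := card_union_le H (H.image (sg N n))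
  have h4 : (H.image (sg N n)).card ≤ H.card := card_image_le
  omega

theorem two_half_le {N : ℕ} {T : Finset ℕ} (hT : T ⊆ range N) (n : ℕ) :
    2 * (half N T n).card ≤ cnt N T T n := by
  have hTN : ∀ b ∈ T, b < N := fun b hb => by simpa using hT hb
  have hdis : Disjoint (half N T n) ((half N T n).image (sg N n)) := by
    rw [Finset.disjoint_left]
    intro b hb hb'
    rw [mem_image] at hb'
    obtain ⟨c, hc, rfl⟩ := hb'
    simp only [half, mem_filter] at hb hc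
    rw [sg_sg (hTN c hc.1)] at hb
    omega
  have hinj : Set.InjOn (sg N n) (half N T n : Set ℕ) := by
    intro b hb c hc h
    simp only [half, coe_filter, Set.mem_ofPred_eq] at hb hc
    rw [← sg_sg (n := n) (hTN b hb.1), ← sg_sg (n := n) (hTN c hc.1), h]
  have hcard : (half N T n ∪ (half N T n).image (sg N n)).card = 2 * (half N T n).card := by
    rw [card_union_of_disjoint hdis, card_image_of_injOn hinj]; ring
  rw [← hcard]
  unfold cnt
  apply card_le_card
  intro b hb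
  rw [mem_union, mem_image] at hb
  rw [mem_filter]
  rcases hb with hb | ⟨c, hc, rfl⟩
  · simp only [half, mem_filter] at hb
    exact ⟨hb.1, hb.2.1⟩
  · simp only [half, mem_filter] at hc
    rw [sg_sg (hTN c hc.1)]
    exact ⟨hc.2.1, hc.1⟩

/-! ### Averages over the choices -/

/-- Extension by zero of a choice function. -/
def ext (N : ℕ) (ε : Fin N → ZMod 2) (a : ℕ) : ZMod 2 := if h : a < N then ε ⟨a, h⟩ else 0

theorem sum_prod_ext (N : ℕ) (L : Finset ℕ) (hL : L ⊆ range N) (g : ℕ → ZMod 2 → ℝ) :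
    ∑ ε : Fin N → ZMod 2, ∏ a ∈ L, g a (ext N ε a)
      = 2 ^ N * ∏ a ∈ L, ((g a 0 + g a 1) / 2) := by
  have h1 : ∀ f : ℕ → ℝ, ∏ a ∈ L, f a = ∏ i : Fin N, (if (i : ℕ) ∈ L then f i else 1) := by
    intro f
    rw [← Finset.prod_range (fun a => if a ∈ L then f a else 1), ← Finset.prod_filter]
    congr 1
    ext a
    simp only [mem_filter]
    exact ⟨fun h => ⟨hL h, h⟩, fun h => h.2⟩
  have h2 : ∀ ε : Fin N → ZMod 2, ∏ a ∈ L, g a (ext N ε a)
      = ∏ i : Fin N, (fun (i : Fin N) (z : ZMod 2) => if (i : ℕ) ∈ L then g i z else 1) i (ε i) := by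
    intro ε
    rw [h1]
    apply Finset.prod_congr rfl
    intro i _
    simp only [ext, i.2, dif_pos, Fin.eta]
  simp_rw [h2]
  have h3 := Finset.prod_univ_sum (fun _ : Fin N => (Finset.univ : Finset (ZMod 2)))
    (fun (i : Fin N) (z : ZMod 2) => if (i : ℕ) ∈ L then g i z else (1 : ℝ))
  rw [Fintype.piFinset_univ] at h3
  have h5 : (2 : ℝ) ^ N = ∏ _i : Fin N, (2 : ℝ) := by simp
  rw [← h3, h1, h5, ← Finset.prod_mul_distrib]
  apply Finset.prod_congr rfl
  intro i _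
  have h4 : ∀ f : ZMod 2 → ℝ, ∑ z : ZMod 2, f z = f 0 + f 1 := fun f => Fin.sum_univ_two f
  rw [h4]
  split_ifs
  · ring
  · norm_num

theorem ext_lt {N : ℕ} (ε : Fin N → ZMod 2) {a : ℕ} (h : a < N) : ext N ε a = ε ⟨a, h⟩ := by
  simp [ext, h]

/-- Sums over disjoint pairs are independent. -/
theorem sum_prod_pair (N : ℕ) (L : Finset ℕ) (hL : L ⊆ range N) (σ : ℕ → ℕ)
    (hσ : ∀ a ∈ L, σ a < N ∧ σ a ∉ L) (g : ℕ → ZMod 2 → ℝ) :
    ∑ ε : Fin N → ZMod 2, ∏ a ∈ L, g a (ext N ε a + ext N ε (σ a))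
      = 2 ^ N * ∏ a ∈ L, ((g a 0 + g a 1) / 2) := by
  rw [← sum_prod_ext N L hL g]
  set Ψ : (Fin N → ZMod 2) → (Fin N → ZMod 2) :=
    fun ε i => ε i + (if (i : ℕ) ∈ L then ext N ε (σ i) else 0) with hΨ
  have hinv : Function.Involutive Ψ := by
    intro ε
    funext i
    simp only [hΨ]
    by_cases hi : (i : ℕ) ∈ L
    · rw [if_pos hi, if_pos hi]
      obtain ⟨h1, h2⟩ := hσ _ hi
      rw [ext_lt _ h1, ext_lt _ h1]
      simp only
      rw [if_neg h2, add_zero, add_assoc, CharTwo.add_self_eq_zero, add_zero]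
    · rw [if_neg hi, if_neg hi]; simp
  refine Fintype.sum_bijective Ψ hinv.bijective _ _ ?_
  intro ε
  apply Finset.prod_congr rfl
  intro a ha
  have h1 : a < N := by simpa using hL ha
  rw [ext_lt (Ψ ε) h1, ext_lt ε h1]
  simp only [hΨ, if_pos ha]

theorem zmod_two_cases : ∀ z : ZMod 2, z = 0 ∨ z = 1 := by decide

theorem avg_ite (z : ZMod 2) (w : ℝ) :
    ((if (0 : ZMod 2) = z then w else 1) + (if (1 : ZMod 2) = z then w else 1)) / 2
      = (1 + w) / 2 := by
  rcases zmod_two_cases z with rfl | rfl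
  · rw [if_pos rfl, if_neg (by decide)]; ring
  · rw [if_neg (by decide), if_pos rfl]

/-- The frozen-active step. -/
theorem avg_frozen {N : ℕ} (hN : 0 < N) {F T : Finset ℕ} (hF : F ⊆ range N) (hT : T ⊆ range N)
    (n : ℕ) (u : ℝ) (hu : 0 ≤ u) :
    ∑ ε : Fin N → ZMod 2, (1 + 2 * u) ^ (cnt (4 * N) F (nx N T (ext N ε)) n)
      ≤ 2 ^ N * (1 + u) ^ (cnt N F T n) := by
  set L := T.filter (fun b => sg N n b ∈ F) with hL
  have hLN : L ⊆ range N := (filter_subset _ _).trans hT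
  have h1 := sum_prod_ext N L hLN (fun b z => if z = rho N n b then 1 + 2 * u else 1)
  have h2 : ∏ a ∈ L, (((if (0 : ZMod 2) = rho N n a then 1 + 2 * u else 1)
      + (if (1 : ZMod 2) = rho N n a then 1 + 2 * u else 1)) / 2) = (1 + u) ^ (cnt N F T n) := by
    unfold cnt
    rw [← hL, Finset.prod_congr rfl (g := fun _ => 1 + u), Finset.prod_const]
    intro a _
    rw [avg_ite]; ring
  rw [h2] at h1
  rw [← h1]
  apply Finset.sum_le_sum
  intro ε _
  rw [Finset.prod_ite, Finset.prod_const, Finset.prod_const_one, mul_one]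
  apply pow_le_pow_right₀ (by linarith)
  exact cnt_frozen hN hF T (ext N ε) n

/-- The active-active step. -/
theorem avg_active {N : ℕ} (hN : 0 < N) {T : Finset ℕ} (hT : T ⊆ range N)
    (n : ℕ) (x x' : ℝ) (hx : 0 ≤ x) (hx' : 0 ≤ x')
    (hxx : (1 + (1 + x') ^ 4) / 2 ≤ (1 + x) ^ 2) :
    ∑ ε : Fin N → ZMod 2,
        (1 + x') ^ (cnt (4 * N) (nx N T (ext N ε)) (nx N T (ext N ε)) n)
      ≤ 2 ^ N * ((1 + x') ^ 4 * (1 + x) ^ (cnt N T T n)) := by
  set L := half N T n with hL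
  have hLN : L ⊆ range N := (filter_subset _ _).trans hT
  have hσ : ∀ a ∈ L, sg N n a < N ∧ sg N n a ∉ L := by
    intro a ha
    refine ⟨sg_lt hN n a, fun h => ?_⟩
    simp only [hL, half, mem_filter] at ha h
    have : a < N := by simpa using hT ha.1
    rw [sg_sg this] at h
    omega
  have h1 := sum_prod_pair N L hLN (sg N n) hσ
    (fun b z => if z = rho N n b then (1 + x') ^ 4 else 1)
  have h2 : ∏ a ∈ L, (((if (0 : ZMod 2) = rho N n a then (1 + x') ^ 4 else 1)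
      + (if (1 : ZMod 2) = rho N n a then (1 + x') ^ 4 else 1)) / 2)
      = ((1 + (1 + x') ^ 4) / 2) ^ L.card := by
    rw [Finset.prod_congr rfl (g := fun _ => (1 + (1 + x') ^ 4) / 2), Finset.prod_const]
    intro a _
    exact avg_ite _ _
  rw [h2] at h1
  have h4 : ∑ ε : Fin N → ZMod 2,
        (1 + x') ^ (cnt (4 * N) (nx N T (ext N ε)) (nx N T (ext N ε)) n)
      ≤ ∑ ε : Fin N → ZMod 2, (1 + x') ^ 4 * ∏ b ∈ L,
        (if ext N ε b + ext N ε (sg N n b) = rho N n b then (1 + x') ^ 4 else 1) := by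
    apply Finset.sum_le_sum
    intro ε _
    rw [Finset.prod_ite, Finset.prod_const, Finset.prod_const_one, mul_one, ← pow_mul, ← pow_add]
    apply pow_le_pow_right₀ (by linarith)
    have := cnt_active' hN hT (ext N ε) n
    rw [← hL] at this
    omega
  refine h4.trans ?_
  rw [← Finset.mul_sum, h1]
  have h5 : ((1 + (1 + x') ^ 4) / 2) ^ L.card ≤ (1 + x) ^ (cnt N T T n) := by
    calc ((1 + (1 + x') ^ 4) / 2) ^ L.card ≤ ((1 + x) ^ 2) ^ L.card :=
          pow_le_pow_left₀ (by positivity) hxx _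
      _ = (1 + x) ^ (2 * L.card) := by rw [← pow_mul]
      _ ≤ (1 + x) ^ (cnt N T T n) :=
          pow_le_pow_right₀ (by linarith) (two_half_le hT n)
  calc (1 + x') ^ 4 * (2 ^ N * ((1 + (1 + x') ^ 4) / 2) ^ L.card)
      ≤ (1 + x') ^ 4 * (2 ^ N * (1 + x) ^ (cnt N T T n)) := by gcongr
    _ = 2 ^ N * ((1 + x') ^ 4 * (1 + x) ^ (cnt N T T n)) := by ring

/-! ### The potential -/

/-- The weights. -/
noncomputable def xw (i : ℕ) : ℝ := 1 / (2 * (i + 1))

theorem xw_pos (i : ℕ) : 0 < xw i := by unfold xw; positivity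

theorem xw_step (j : ℕ) : (1 + (1 + xw (j + 1)) ^ 4) / 2 ≤ (1 + xw j) ^ 2 := by
  have h0 : 0 < xw (j + 1) := xw_pos _
  have h1 : xw (j + 1) ≤ 1 / 4 := by
    unfold xw
    push_cast
    have : (0 : ℝ) ≤ j := by positivity
    rw [div_le_div_iff₀ (by positivity) (by norm_num)]
    linarith
  have h2 : xw (j + 1) + 2 * xw (j + 1) ^ 2 ≤ xw j := by
    unfold xw
    push_cast
    have hj : (0 : ℝ) ≤ j := by positivity
    have e1 : (1 : ℝ) / (2 * (j + 1)) - (1 / (2 * (j + 1 + 1)) + 2 * (1 / (2 * (j + 1 + 1))) ^ 2)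
        = 1 / (2 * (j + 1) * (j + 2) ^ 2) := by
      field_simp
      ring
    have e2 : (0 : ℝ) ≤ 1 / (2 * (j + 1) * (j + 2) ^ 2) := by positivity
    linarith
  set y := xw (j + 1) with hy
  set x := xw j with hx
  have h3 : 0 < x := xw_pos _
  have h4 : 1 + 2 * (y + 2 * y ^ 2) + y ^ 2 ≤ (1 + x) ^ 2 := by nlinarith
  have h5 : (1 + (1 + y) ^ 4) / 2 = 1 + 2 * y + 3 * y ^ 2 + 2 * y ^ 3 + y ^ 4 / 2 := by ring
  rw [h5]
  have h6 : 2 * y ^ 3 + y ^ 4 / 2 ≤ 2 * y ^ 2 := by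
    have : y ^ 2 * (2 * y + y ^ 2 / 2) ≤ y ^ 2 * 2 := by
      apply mul_le_mul_of_nonneg_left _ (by positivity)
      nlinarith
    nlinarith
  linarith

theorem xw_four (j : ℕ) : (1 + xw (j + 1)) ^ 4 ≤ 5 / 2 := by
  have h0 : 0 < xw (j + 1) := xw_pos _
  have h1 : xw (j + 1) ≤ 1 / 4 := by
    unfold xw
    push_cast
    have : (0 : ℝ) ≤ j := by positivity
    rw [div_le_div_iff₀ (by positivity) (by norm_num)]
    linarith
  calc (1 + xw (j + 1)) ^ 4 ≤ (1 + 1 / 4) ^ 4 := by gcongr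
    _ ≤ 5 / 2 := by norm_num

/-- One summand of the potential. -/
noncomputable def Phi (T : ℕ → Finset ℕ) (i j : ℕ) : ℝ :=
  ∑ n ∈ range (4 ^ j), (1 + 2 ^ (j - i) * xw i) ^ (cnt (4 ^ j) (T i) (T j) n)

theorem Phi_nonneg (T : ℕ → Finset ℕ) (i j : ℕ) : 0 ≤ Phi T i j := by
  unfold Phi
  have := xw_pos i
  positivity

/-- The potential. -/
noncomputable def Psi (T : ℕ → Finset ℕ) (j : ℕ) : ℝ := ∑ i ∈ range (j + 1), Phi T i j

theorem sum_mod (f : ℕ → ℝ) (N k : ℕ) :
    ∑ n ∈ range (k * N), f (n % N) = k * ∑ n ∈ range N, f n := by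
  induction' k with k ih
  · simp
  · rw [add_mul, one_mul, Finset.sum_range_add, ih]
    have : ∑ x ∈ range N, f ((k * N + x) % N) = ∑ n ∈ range N, f n := by
      apply Finset.sum_congr rfl
      intro x hx
      rw [mem_range] at hx
      rw [Nat.mul_add_mod_self_right, Nat.mod_eq_of_lt hx]
    rw [this]
    push_cast
    ring

theorem phi_frozen {T : ℕ → Finset ℕ} {i j : ℕ} (hij : i ≤ j) (hi : T i ⊆ range (4 ^ i))
    (hj : T j ⊆ range (4 ^ j)) :
    ∑ ε : Fin (4 ^ j) → ZMod 2, ∑ n ∈ range (4 ^ (j + 1)),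
      (1 + 2 ^ (j + 1 - i) * xw i) ^
        (cnt (4 ^ (j + 1)) (T i) (nx (4 ^ j) (T j) (ext (4 ^ j) ε)) n)
      ≤ 2 ^ (4 ^ j) * (4 * Phi T i j) := by
  rw [Finset.sum_comm]
  have hN : 0 < 4 ^ j := by positivity
  have hiN : T i ⊆ range (4 ^ j) := by
    refine hi.trans (Finset.range_subset_range.mpr ?_)
    exact Nat.pow_le_pow_right (by norm_num) hij
  have hx := xw_pos i
  have h1 : (1 + 2 ^ (j + 1 - i) * xw i : ℝ) = 1 + 2 * (2 ^ (j - i) * xw i) := by
    rw [Nat.succ_sub hij, pow_succ]; ring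
  rw [h1, pow_succ', show 4 * 4 ^ j = 4 * (4 ^ j) from rfl]
  calc ∑ n ∈ range (4 * 4 ^ j), ∑ ε : Fin (4 ^ j) → ZMod 2,
        (1 + 2 * (2 ^ (j - i) * xw i)) ^
          (cnt (4 * 4 ^ j) (T i) (nx (4 ^ j) (T j) (ext (4 ^ j) ε)) n)
      ≤ ∑ n ∈ range (4 * 4 ^ j), 2 ^ (4 ^ j) *
          (1 + 2 ^ (j - i) * xw i) ^ (cnt (4 ^ j) (T i) (T j) (n % 4 ^ j)) := by
        apply Finset.sum_le_sum
        intro n _
        rw [cnt_mod]
        exact avg_frozen hN hiN hj n _ (by positivity)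
    _ = 2 ^ (4 ^ j) * (4 * Phi T i j) := by
        rw [← Finset.mul_sum, sum_mod (fun n => (1 + 2 ^ (j - i) * xw i) ^
          (cnt (4 ^ j) (T i) (T j) n))]
        norm_num [Phi]

theorem phi_active {T : ℕ → Finset ℕ} {j : ℕ} (hj : T j ⊆ range (4 ^ j)) :
    ∑ ε : Fin (4 ^ j) → ZMod 2, ∑ n ∈ range (4 ^ (j + 1)),
      (1 + 2 ^ (j + 1 - (j + 1)) * xw (j + 1)) ^
        (cnt (4 ^ (j + 1)) (nx (4 ^ j) (T j) (ext (4 ^ j) ε))
          (nx (4 ^ j) (T j) (ext (4 ^ j) ε)) n)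
      ≤ 2 ^ (4 ^ j) * (10 * Phi T j j) := by
  rw [Finset.sum_comm]
  have hN : 0 < 4 ^ j := by positivity
  have hx := xw_pos j
  have hx' := xw_pos (j + 1)
  rw [Nat.sub_self, pow_zero, one_mul, pow_succ', show 4 * 4 ^ j = 4 * (4 ^ j) from rfl]
  calc ∑ n ∈ range (4 * 4 ^ j), ∑ ε : Fin (4 ^ j) → ZMod 2,
        (1 + xw (j + 1)) ^ (cnt (4 * 4 ^ j) (nx (4 ^ j) (T j) (ext (4 ^ j) ε))
          (nx (4 ^ j) (T j) (ext (4 ^ j) ε)) n)
      ≤ ∑ n ∈ range (4 * 4 ^ j), 2 ^ (4 ^ j) * (5 / 2 *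
          (1 + xw j) ^ (cnt (4 ^ j) (T j) (T j) (n % 4 ^ j))) := by
        apply Finset.sum_le_sum
        intro n _
        rw [cnt_mod]
        refine (avg_active hN hj n (xw j) (xw (j + 1)) hx.le hx'.le (xw_step j)).trans ?_
        have := xw_four j
        gcongr
    _ = 2 ^ (4 ^ j) * (10 * Phi T j j) := by
        rw [← Finset.mul_sum, ← Finset.mul_sum, sum_mod (fun n => (1 + xw j) ^
          (cnt (4 ^ j) (T j) (T j) n))]
        simp only [Phi, Nat.sub_self, pow_zero, one_mul]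
        push_cast
        ring

theorem step {T : ℕ → Finset ℕ} {j : ℕ} (hT : ∀ i ≤ j, T i ⊆ range (4 ^ i)) :
    ∃ e : ℕ → ZMod 2,
      Psi (Function.update T (j + 1) (nx (4 ^ j) (T j) e)) (j + 1) ≤ 16 * Psi T j := by
  have hpsi : ∀ ε : Fin (4 ^ j) → ZMod 2,
      Psi (Function.update T (j + 1) (nx (4 ^ j) (T j) (ext (4 ^ j) ε))) (j + 1)
      = ∑ i ∈ range (j + 1), ∑ n ∈ range (4 ^ (j + 1)),
      (1 + 2 ^ (j + 1 - i) * xw i) ^
        (cnt (4 ^ (j + 1)) (T i) (nx (4 ^ j) (T j) (ext (4 ^ j) ε)) n)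
      + ∑ n ∈ range (4 ^ (j + 1)),
      (1 + 2 ^ (j + 1 - (j + 1)) * xw (j + 1)) ^
        (cnt (4 ^ (j + 1)) (nx (4 ^ j) (T j) (ext (4 ^ j) ε))
          (nx (4 ^ j) (T j) (ext (4 ^ j) ε)) n) := by
    intro ε
    unfold Psi
    rw [Finset.sum_range_succ]
    congr 1
    · apply Finset.sum_congr rfl
      intro i hi
      rw [mem_range] at hi
      unfold Phi
      rw [Function.update_self, Function.update_of_ne (by omega)]
    · unfold Phi
      rw [Function.update_self]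
  have hsum : ∑ ε : Fin (4 ^ j) → ZMod 2,
      Psi (Function.update T (j + 1) (nx (4 ^ j) (T j) (ext (4 ^ j) ε))) (j + 1)
      ≤ ∑ _ε : Fin (4 ^ j) → ZMod 2, 16 * Psi T j := by
    simp_rw [hpsi]
    rw [Finset.sum_add_distrib, Finset.sum_comm, Finset.sum_const, Finset.card_univ]
    have hcard : Fintype.card (Fin (4 ^ j) → ZMod 2) = 2 ^ (4 ^ j) := by
      rw [Fintype.card_fun, ZMod.card, Fintype.card_fin]
    rw [hcard]
    have h1 : ∑ i ∈ range (j + 1), ∑ ε : Fin (4 ^ j) → ZMod 2, ∑ n ∈ range (4 ^ (j + 1)),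
      (1 + 2 ^ (j + 1 - i) * xw i) ^
        (cnt (4 ^ (j + 1)) (T i) (nx (4 ^ j) (T j) (ext (4 ^ j) ε)) n)
        ≤ ∑ i ∈ range (j + 1), 2 ^ (4 ^ j) * (4 * Phi T i j) := by
      apply Finset.sum_le_sum
      intro i hi
      rw [mem_range] at hi
      exact phi_frozen (by omega) (hT i (by omega)) (hT j le_rfl)
    have h2 := phi_active (hT j le_rfl)
    have h3 : Phi T j j ≤ Psi T j := by
      unfold Psi
      exact Finset.single_le_sum (f := fun i => Phi T i j) (fun i _ => Phi_nonneg T i j)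
        (mem_range.mpr (by omega))
    rw [← Finset.mul_sum, ← Finset.mul_sum] at h1
    have h4 : (0 : ℝ) ≤ 2 ^ (4 ^ j) := by positivity
    have h5 : 0 ≤ Phi T j j := Phi_nonneg _ _ _
    calc _ ≤ 2 ^ (4 ^ j) * (4 * ∑ i ∈ range (j + 1), Phi T i j)
          + 2 ^ (4 ^ j) * (10 * Phi T j j) := add_le_add h1 h2
      _ = 2 ^ (4 ^ j) * (4 * Psi T j + 10 * Phi T j j) := by unfold Psi; ring
      _ ≤ 2 ^ (4 ^ j) * (16 * Psi T j) := by
          apply mul_le_mul_of_nonneg_left _ h4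
          linarith
      _ = _ := by
          rw [nsmul_eq_mul]; push_cast; ring
  obtain ⟨ε, -, hε⟩ := Finset.exists_le_of_sum_le Finset.univ_nonempty hsum
  exact ⟨_, hε⟩

/-! ### The sequence -/

theorem nx_sub (N : ℕ) (T : Finset ℕ) (e : ℕ → ZMod 2) : nx N T e ⊆ range (4 * N) :=
  filter_subset _ _

/-- A good start of the sequence. -/
def Good (T : ℕ → Finset ℕ) (j : ℕ) : Prop :=
  T 0 = {0} ∧ (∀ i < j, ∃ e, T (i + 1) = nx (4 ^ i) (T i) e) ∧ Psi T j ≤ 2 * 16 ^ j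

theorem Good.sub {T : ℕ → Finset ℕ} {j : ℕ} (h : Good T j) {i : ℕ} (hi : i ≤ j) :
    T i ⊆ range (4 ^ i) := by
  cases i with
  | zero => rw [h.1]; simp
  | succ i =>
    obtain ⟨e, he⟩ := h.2.1 i (by omega)
    rw [he, pow_succ']
    exact nx_sub _ _ _

theorem Psi_congr {T T' : ℕ → Finset ℕ} {j : ℕ} (h : ∀ i ≤ j, T i = T' i) :
    Psi T j = Psi T' j := by
  unfold Psi
  apply Finset.sum_congr rfl
  intro i hi
  rw [mem_range] at hi
  unfold Phi
  rw [h i (by omega), h j le_rfl]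

theorem Good.congr {T T' : ℕ → Finset ℕ} {j : ℕ} (h : ∀ i ≤ j, T i = T' i) (hT : Good T j) :
    Good T' j := by
  refine ⟨by rw [← h 0 (by omega)]; exact hT.1, fun i hi => ?_, ?_⟩
  · rw [← h (i + 1) (by omega), ← h i (by omega)]
    exact hT.2.1 i hi
  · rw [← Psi_congr h]; exact hT.2.2

theorem good_zero : Good (fun _ => {0}) 0 := by
  refine ⟨rfl, fun i hi => absurd hi (by omega), ?_⟩
  have h0 : cnt 1 {0} {0} 0 = 1 := by decide
  unfold Psi Phi xw
  simp [h0]
  norm_num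

theorem good_step (j : ℕ) (T : ℕ → Finset ℕ) (h : Good T j) :
    ∃ T', Good T' (j + 1) ∧ ∀ i ≤ j, T' i = T i := by
  obtain ⟨e, he⟩ := step (fun i hi => h.sub hi)
  have h0 : ∀ i ≤ j, Function.update T (j + 1) (nx (4 ^ j) (T j) e) i = T i := by
    intro i hi
    rw [Function.update_of_ne (by omega)]
  refine ⟨Function.update T (j + 1) (nx (4 ^ j) (T j) e), ⟨?_, ?_, ?_⟩, h0⟩
  · rw [h0 0 (by omega)]; exact h.1
  · intro i hi
    rcases Nat.lt_succ_iff_lt_or_eq.mp hi with hi | rfl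
    · rw [h0 (i + 1) (by omega), h0 i (by omega)]
      exact h.2.1 i hi
    · exact ⟨e, by rw [Function.update_self, h0 _ le_rfl]⟩
  · refine he.trans ?_
    have := h.2.2
    rw [pow_succ]
    linarith

theorem exists_tree : ∃ T : ℕ → Finset ℕ, ∀ j, Good T j := by
  classical
  choose! F hF1 hF2 using good_step
  let S : ∀ j : ℕ, {T : ℕ → Finset ℕ // Good T j} := fun j =>
    Nat.rec ⟨fun _ => {0}, good_zero⟩ (fun j s => ⟨F j s.1, hF1 j s.1 s.2⟩) j
  have hS : ∀ j, (S (j + 1)).1 = F j (S j).1 := fun j => rfl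
  have hag : ∀ j i, i ≤ j → (S j).1 i = (S i).1 i := by
    intro j
    induction' j with j ih
    · intro i hi
      obtain rfl : i = 0 := by omega
      rfl
    · intro i hi
      rcases Nat.le_succ_iff.mp hi with hi | rfl
      · rw [hS, hF2 j _ (S j).2 i hi]
        exact ih i hi
      · rfl
  refine ⟨fun i => (S i).1 i, fun j => ?_⟩
  exact Good.congr (fun i hi => hag j i hi) (S j).2

/-! ### The set -/

section final

variable {T : ℕ → Finset ℕ} (hT : ∀ j, Good T j)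

include hT

theorem tree_lt {j a : ℕ} (ha : a ∈ T j) : a < 4 ^ j := by
  simpa using (hT j).sub le_rfl ha

theorem tree_mod_succ {j a : ℕ} (ha : a ∈ T (j + 1)) : a % 4 ^ j ∈ T j := by
  obtain ⟨e, he⟩ := (hT (j + 1)).2.1 j (by omega)
  rw [he] at ha
  simp only [nx, mem_filter] at ha
  exact ha.2.1

theorem tree_mod {i j a : ℕ} (hij : j ≤ i) (ha : a ∈ T i) : a % 4 ^ j ∈ T j := by
  induction' i, hij using Nat.le_induction with i hij ih generalizing a
  · rwa [Nat.mod_eq_of_lt (tree_lt hT ha)]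
  · have h1 := ih (tree_mod_succ hT ha)
    rwa [Nat.mod_mod_of_dvd _ (pow_dvd_pow 4 hij)] at h1

theorem tree_card (j : ℕ) : 2 ^ j ≤ (T j).card := by
  induction' j with j ih
  · rw [(hT 0).1]; simp
  · obtain ⟨e, he⟩ := (hT (j + 1)).2.1 j (by omega)
    have hN : 0 < 4 ^ j := by positivity
    rw [he, pow_succ]
    refine le_trans (Nat.mul_le_mul_right 2 ih) ?_
    have hprod : (T j ×ˢ range 2).card = (T j).card * 2 := by
      rw [Finset.card_product, Finset.card_range]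
    rw [← hprod]
    refine Finset.card_le_card_of_injOn
      (fun p => p.1 + 4 ^ j * ((e p.1).val + 2 * p.2)) ?_ ?_
    · rintro ⟨a, d⟩ hp
      simp only [coe_product, Set.mem_prod, mem_coe, mem_range] at hp
      have ha := tree_lt hT hp.1
      have hv : (e a).val < 2 := ZMod.val_lt _
      have h1 : (a + 4 ^ j * ((e a).val + 2 * d)) % 4 ^ j = a := by
        rw [Nat.add_mul_mod_self_left, Nat.mod_eq_of_lt ha]
      have h2 : (a + 4 ^ j * ((e a).val + 2 * d)) / 4 ^ j = (e a).val + 2 * d := by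
        rw [Nat.add_mul_div_left _ _ hN, Nat.div_eq_of_lt ha, zero_add]
      simp only [nx, coe_filter, Set.mem_ofPred_eq, mem_range]
      rw [h1, h2]
      refine ⟨?_, hp.1, ?_⟩
      · have h3 : (e a).val + 2 * d ≤ 3 := by omega
        calc a + 4 ^ j * ((e a).val + 2 * d) < 4 ^ j + 4 ^ j * 3 := by
              have := Nat.mul_le_mul_left (4 ^ j) h3
              omega
          _ = 4 * 4 ^ j := by ring
      · push_cast
        rw [ZMod.natCast_zmod_val, show (2 : ZMod 2) = 0 by decide]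
        ring
    · rintro ⟨a, d⟩ hp ⟨a', d'⟩ hp' h
      simp only [coe_product, Set.mem_prod, mem_coe, mem_range] at hp hp'
      have ha := tree_lt hT hp.1
      have ha' := tree_lt hT hp'.1
      simp only at h
      have h1 : a = a' := by
        have := congrArg (fun x => x % 4 ^ j) h
        simpa [Nat.add_mul_mod_self_left, Nat.mod_eq_of_lt ha, Nat.mod_eq_of_lt ha'] using this
      subst h1
      have h2 : 4 ^ j * ((e a).val + 2 * d) = 4 ^ j * ((e a).val + 2 * d') := by omega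
      have h3 := Nat.eq_of_mul_eq_mul_left hN h2
      simp only [Prod.mk.injEq, true_and]
      omega

/-- The bound for one pair of levels. -/
theorem cnt_le {i j : ℕ} (hij : i ≤ j) (n : ℕ) :
    (cnt (4 ^ j) (T i) (T j) n : ℝ) ≤ 3 * (j + 1) * (1 + 2 * (i + 1) / 2 ^ (j - i)) := by
  rw [← cnt_mod]
  have hN : 0 < 4 ^ j := by positivity
  have hy : (0 : ℝ) < 2 ^ (j - i) * xw i := mul_pos (by positivity) (xw_pos i)
  set y : ℝ := 2 ^ (j - i) * xw i with hyd
  set c := cnt (4 ^ j) (T i) (T j) (n % 4 ^ j) with hc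
  have h1 : (1 + y) ^ c ≤ 2 * 16 ^ j := by
    have h2 : (1 + y) ^ c ≤ Phi T i j := by
      unfold Phi
      refine Finset.single_le_sum (f := fun n => (1 + 2 ^ (j - i) * xw i) ^
        (cnt (4 ^ j) (T i) (T j) n)) (fun n _ => ?_) (mem_range.mpr (Nat.mod_lt n hN))
      have := xw_pos i
      positivity
    have h3 : Phi T i j ≤ Psi T j := by
      unfold Psi
      exact Finset.single_le_sum (f := fun i => Phi T i j) (fun i _ => Phi_nonneg T i j)
        (mem_range.mpr (by omega))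
    exact h2.trans (h3.trans (hT j).2.2)
  have h4 : (c : ℝ) * Real.log (1 + y) ≤ Real.log 2 + j * Real.log 16 := by
    have := Real.log_le_log (by positivity) h1
    rwa [Real.log_pow, Real.log_mul (by norm_num) (by positivity), Real.log_pow] at this
  have h5 : y / (1 + y) ≤ Real.log (1 + y) := by
    have := Real.one_sub_inv_le_log_of_pos (show 0 < 1 + y by positivity)
    have h6 : y / (1 + y) = 1 - (1 + y)⁻¹ := by field_simp; ring
    linarith
  have h6 : Real.log 16 = 4 * Real.log 2 := by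
    rw [show (16 : ℝ) = 2 ^ 4 by norm_num, Real.log_pow]; norm_num
  have h7 : Real.log 2 + j * Real.log 16 ≤ 3 * (j + 1) := by
    have := Real.log_two_lt_d9
    have hj : (0 : ℝ) ≤ j := by positivity
    rw [h6]
    nlinarith
  have h8 : (c : ℝ) * (y / (1 + y)) ≤ 3 * (j + 1) :=
    (mul_le_mul_of_nonneg_left h5 (by positivity)).trans (h4.trans h7)
  have h9 : (c : ℝ) ≤ 3 * (j + 1) * ((1 + y) / y) := by
    have h10 : (c : ℝ) = c * (y / (1 + y)) * ((1 + y) / y) := by field_simp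
    rw [h10]
    exact mul_le_mul_of_nonneg_right h8 (by positivity)
  refine h9.trans (le_of_eq ?_)
  congr 1
  rw [hyd]
  unfold xw
  field_simp
  ring

theorem cnt_sum_le (j n : ℕ) :
    ∑ i ∈ range (j + 1), (cnt (4 ^ j) (T i) (T j) n : ℝ) ≤ 15 * (j + 1) ^ 2 := by
  have h1 : ∀ i ∈ range (j + 1), (cnt (4 ^ j) (T i) (T j) n : ℝ)
      ≤ 3 * (j + 1) * (1 + 2 * (j + 1) * (1 / 2) ^ (j - i)) := by
    intro i hi
    rw [mem_range] at hi
    refine (cnt_le hT (by omega) n).trans ?_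
    have h2 : (i : ℝ) ≤ j := by exact_mod_cast (by omega : i ≤ j)
    have h3 : (2 * ((i : ℝ) + 1) / 2 ^ (j - i)) ≤ 2 * (j + 1) * (1 / 2) ^ (j - i) := by
      rw [one_div, inv_pow, ← div_eq_mul_inv]
      gcongr
    gcongr
  refine (Finset.sum_le_sum h1).trans ?_
  rw [← Finset.mul_sum, Finset.sum_add_distrib, Finset.sum_const, card_range, ← Finset.mul_sum]
  have h4 : ∑ i ∈ range (j + 1), ((1 : ℝ) / 2) ^ (j - i) ≤ 2 := by
    have h5 := Finset.sum_range_reflect (fun i => ((1 : ℝ) / 2) ^ i) (j + 1)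
    have h6 : ∑ i ∈ range (j + 1), ((1 : ℝ) / 2) ^ (j - i)
        = ∑ i ∈ range (j + 1), ((1 : ℝ) / 2) ^ (j + 1 - 1 - i) := by
      apply Finset.sum_congr rfl
      intro i _
      rw [Nat.add_sub_cancel]
    rw [h6, h5]
    have h7 := geom_sum_eq (show (1 / 2 : ℝ) ≠ 1 by norm_num) (j + 1)
    rw [h7]
    have : (0 : ℝ) ≤ (1 / 2) ^ (j + 1) := by positivity
    rw [div_le_iff_of_neg (by norm_num)]
    linarith
  have hj : (0 : ℝ) ≤ j := by positivity
  rw [nsmul_eq_mul]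
  push_cast
  calc 3 * ((j : ℝ) + 1) * ((j + 1) * 1 + 2 * (j + 1) * ∑ i ∈ range (j + 1), (1 / 2) ^ (j - i))
      ≤ 3 * ((j : ℝ) + 1) * ((j + 1) * 1 + 2 * (j + 1) * 2) := by gcongr
    _ = 15 * (j + 1) ^ 2 := by ring

/-- The union of the levels. -/
theorem rep_le (n : ℕ) :
    ({q : ℕ × ℕ | q.1 ∈ (⋃ j, (T j : Set ℕ)) ∧ q.2 ∈ (⋃ j, (T j : Set ℕ)) ∧
      q.1 + q.2 = n}.ncard : ℝ) ≤ 60 * (Nat.log 4 n + 2) ^ 2 := by
  classical
  set K := Nat.log 4 n with hK
  have hnlt : n < 4 ^ (K + 1) := Nat.lt_pow_succ_log_self (by norm_num) n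
  let B : ℕ → ℕ → Finset ℕ := fun m i => (T m).filter (fun b => sg (4 ^ m) n b ∈ T i)
  let U : ℕ → Finset (ℕ × ℕ) := fun m => (range (m + 1)).biUnion
    (fun i => (B m i).image (fun b => (n - b, b)) ∪ (B m i).image (fun b => (b, n - b)))
  have hU : ∀ m, ((U m).card : ℝ) ≤ 30 * (m + 1) ^ 2 := by
    intro m
    have h1 : (U m).card ≤ ∑ i ∈ range (m + 1), 2 * cnt (4 ^ m) (T i) (T m) n := by
      refine card_biUnion_le.trans (Finset.sum_le_sum fun i _ => ?_)
      refine (card_union_le _ _).trans ?_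
      have h2 : ((B m i).image (fun b => (n - b, b))).card ≤ (B m i).card := card_image_le
      have h3 : ((B m i).image (fun b => (b, n - b))).card ≤ (B m i).card := card_image_le
      have h4 : (B m i).card = cnt (4 ^ m) (T i) (T m) n := rfl
      omega
    have h2 := cnt_sum_le hT m n
    have h3 : ((U m).card : ℝ) ≤ ∑ i ∈ range (m + 1), 2 * (cnt (4 ^ m) (T i) (T m) n : ℝ) := by
      exact_mod_cast h1
    rw [← Finset.mul_sum] at h3
    linarith
  have hmemU : ∀ m a b i, i ≤ m → a ∈ T i → b ∈ T m → a + b = n →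
      ((a, b) ∈ U m ∧ (b, a) ∈ U m) := by
    intro m a b i him ha hb hab
    have hbm := tree_lt hT hb
    have ham : a < 4 ^ m := (tree_lt hT ha).trans_le (Nat.pow_le_pow_right (by norm_num) him)
    have h1 : a = sg (4 ^ m) n b := eq_sg ham hbm (by rw [hab])
    have h2 : b ∈ B m i := by
      simp only [B, mem_filter]
      exact ⟨hb, by rw [← h1]; exact ha⟩
    have h3 : n - b = a := by omega
    simp only [U, mem_biUnion, mem_range, mem_union, mem_image, Prod.mk.injEq]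
    exact ⟨⟨i, by omega, Or.inl ⟨b, h2, h3, rfl⟩⟩, ⟨i, by omega, Or.inr ⟨b, h2, rfl, h3⟩⟩⟩
  have hlev : ∀ a ∈ (⋃ j, (T j : Set ℕ)), a ≤ n → ∃ i ≤ K + 1, a ∈ T i := by
    intro a ha han
    simp only [Set.mem_iUnion, mem_coe] at ha
    obtain ⟨i, hi⟩ := ha
    by_cases h : i ≤ K + 1
    · exact ⟨i, h, hi⟩
    · refine ⟨K + 1, le_rfl, ?_⟩
      have := tree_mod hT (show K + 1 ≤ i by omega) hi
      rwa [Nat.mod_eq_of_lt (by omega)] at this
  have hsub : {q : ℕ × ℕ | q.1 ∈ (⋃ j, (T j : Set ℕ)) ∧ q.2 ∈ (⋃ j, (T j : Set ℕ)) ∧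
      q.1 + q.2 = n} ⊆ ((U K ∪ U (K + 1) : Finset (ℕ × ℕ)) : Set (ℕ × ℕ)) := by
    rintro ⟨a, b⟩ ⟨ha, hb, hab⟩
    simp only at ha hb hab
    obtain ⟨i, hi, hai⟩ := hlev a ha (by omega)
    obtain ⟨k, hk, hbk⟩ := hlev b hb (by omega)
    rw [mem_coe, mem_union]
    have hmax : K ≤ max i k := by
      by_contra hcon
      push Not at hcon
      have h1 : i + 1 ≤ K := by have := le_max_left i k; omega
      have h2 : k + 1 ≤ K := by have := le_max_right i k; omega
      have h3 := tree_lt hT hai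
      have h4 := tree_lt hT hbk
      have h5 : 4 ^ (i + 1) ≤ 4 ^ K := Nat.pow_le_pow_right (by norm_num) h1
      have h6 : 4 ^ (k + 1) ≤ 4 ^ K := Nat.pow_le_pow_right (by norm_num) h2
      have hn0 : n ≠ 0 := by
        intro h0
        rw [h0] at hK
        simp at hK
        omega
      have h7 : 4 ^ K ≤ n := Nat.pow_log_le_self 4 hn0
      rw [pow_succ] at h5 h6
      omega
    rcases le_total i k with hik | hik
    · rw [max_eq_right hik] at hmax
      have h1 := (hmemU k a b i hik hai hbk hab).1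
      rcases (show k = K ∨ k = K + 1 by omega) with rfl | rfl
      · exact Or.inl h1
      · exact Or.inr h1
    · rw [max_eq_left hik] at hmax
      have h1 := (hmemU i b a k hik hbk hai (by omega)).2
      rcases (show i = K ∨ i = K + 1 by omega) with rfl | rfl
      · exact Or.inl h1
      · exact Or.inr h1
  have h1 := Set.ncard_le_ncard hsub (Finset.finite_toSet _)
  rw [Set.ncard_coe_finset] at h1
  have h2 : ({q : ℕ × ℕ | q.1 ∈ (⋃ j, (T j : Set ℕ)) ∧ q.2 ∈ (⋃ j, (T j : Set ℕ)) ∧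
      q.1 + q.2 = n}.ncard : ℝ) ≤ (U K).card + (U (K + 1)).card := by
    exact_mod_cast h1.trans (card_union_le _ _)
  have h3 := hU K
  have h4 := hU (K + 1)
  push_cast at h4
  have hK0 : (0 : ℝ) ≤ K := by positivity
  nlinarith

end final

/-- **A nested thick set with `r_A(n) ≤ C (log n)^2`.** -/
theorem nested_sharp : ∃ (A : Set ℕ) (C : ℝ), 0 < C ∧
    (∀ a ∈ A, ∀ j : ℕ, a % 4 ^ j ∈ A) ∧
    (∀ x : ℕ, 1 ≤ x → √(x : ℝ) / 2 ≤ ((A ∩ Set.Iio x).ncard : ℝ)) ∧
    ∀ n : ℕ, 2 ≤ n →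
      ({q : ℕ × ℕ | q.1 ∈ A ∧ q.2 ∈ A ∧ q.1 + q.2 = n}.ncard : ℝ) ≤ C * Real.log n ^ 2 := by
  obtain ⟨T, hT⟩ := exists_tree
  refine ⟨⋃ j, (T j : Set ℕ), 1000, by norm_num, ?_, ?_, ?_⟩
  · intro a ha j
    simp only [Set.mem_iUnion, mem_coe] at ha ⊢
    obtain ⟨i, hi⟩ := ha
    rcases le_total j i with hij | hij
    · exact ⟨j, tree_mod hT hij hi⟩
    · refine ⟨i, ?_⟩
      rwa [Nat.mod_eq_of_lt ((tree_lt hT hi).trans_le (Nat.pow_le_pow_right (by norm_num) hij))]
  · intro x hx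
    set K := Nat.log 4 x with hK
    have h1 : 4 ^ K ≤ x := Nat.pow_log_le_self 4 (by omega)
    have h2 : x < 4 ^ (K + 1) := Nat.lt_pow_succ_log_self (by norm_num) x
    have h3 : (T K : Set ℕ) ⊆ (⋃ j, (T j : Set ℕ)) ∩ Set.Iio x := by
      intro a ha
      exact ⟨Set.mem_iUnion.mpr ⟨K, ha⟩, (tree_lt hT ha).trans_le h1⟩
    have h4 := Set.ncard_le_ncard h3 ((Set.finite_Iio x).subset Set.inter_subset_right)
    rw [Set.ncard_coe_finset] at h4
    have h5 : (2 : ℝ) ^ K ≤ ((((⋃ j, (T j : Set ℕ)) ∩ Set.Iio x).ncard : ℕ) : ℝ) := by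
      exact_mod_cast (tree_card hT K).trans h4
    refine le_trans ?_ h5
    have h6 : √(x : ℝ) ≤ 2 ^ (K + 1) := by
      rw [show (2 : ℝ) ^ (K + 1) = √(4 ^ (K + 1)) by
        rw [show (4 : ℝ) = 2 ^ 2 by norm_num, ← pow_mul, mul_comm, pow_mul,
          Real.sqrt_sq (by positivity)]]
      apply Real.sqrt_le_sqrt
      exact_mod_cast h2.le
    rw [pow_succ] at h6
    linarith
  · intro n hn
    refine (rep_le hT n).trans ?_
    have hn0 : (0 : ℝ) < n := by exact_mod_cast (by omega : 0 < n)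
    have h1 : (Nat.log 4 n : ℝ) * Real.log 4 ≤ Real.log n := by
      have h2 : ((4 ^ (Nat.log 4 n) : ℕ) : ℝ) ≤ n := by
        exact_mod_cast Nat.pow_log_le_self 4 (by omega)
      have h3 := Real.log_le_log (by positivity) h2
      push_cast at h3
      rwa [Real.log_pow] at h3
    have h2 : Real.log 2 ≤ Real.log n := by
      apply Real.log_le_log (by norm_num)
      exact_mod_cast hn
    have h3 : (0.69 : ℝ) < Real.log 2 := by
      have := Real.log_two_gt_d9; linarith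
    have h4 : Real.log 4 = 2 * Real.log 2 := by
      rw [show (4 : ℝ) = 2 ^ 2 by norm_num, Real.log_pow]; norm_num
    have h5 : (0 : ℝ) ≤ (Nat.log 4 n : ℝ) := by positivity
    have h6 : (Nat.log 4 n : ℝ) + 2 ≤ 4 * Real.log n := by
      rw [h4] at h1
      nlinarith
    calc 60 * ((Nat.log 4 n : ℝ) + 2) ^ 2 ≤ 60 * (4 * Real.log n) ^ 2 := by gcongr
      _ = 960 * Real.log n ^ 2 := by ring
      _ ≤ 1000 * Real.log n ^ 2 := by
          have : 0 ≤ Real.log n ^ 2 := by positivity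
          linarith

end Pool.Agent.Helper41.NS
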